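import Pool.Agent.P8H71.RF.Alm
import Pool.Agent.P8H16.RF.Stm3

/-! Package ALM3 of the project RF: Borel-Cantelli for all `T ≤ exp (N ^ δ)`. -/

set_option autoImplicit false

namespace Pool.Agent.P8H71.RF

open Finset MeasureTheory Pool.Agent.P8H16.RF

/-- the parameter of the deviation -/
noncomputable def u3 (δ : ℝ) (k : ℕ) : ℝ :=
  Real.sqrt (32 * ((k : ℝ) + 2) * (((k : ℝ) + 1) ^ δ + 3 * Real.log ((k : ℝ) + 3)))

theorem u3_sq (δ : ℝ) (k : ℕ) : u3 δ k ^ 2 =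
    32 * ((k : ℝ) + 2) * (((k : ℝ) + 1) ^ δ + 3 * Real.log ((k : ℝ) + 3)) := by
  unfold u3
  rw [Real.sq_sqrt]
  have := log_pos' k
  positivity

theorem u3_le {δ : ℝ} (hδ : 0 ≤ δ) {ε : ℝ} (hε : 0 < ε) : ∃ K : ℝ, 0 ≤ K ∧ ∀ k : ℕ,
    u3 δ k ≤ K * (((k + 1 : ℕ) : ℝ) ^ ε * ((k + 1 : ℕ) : ℝ) ^ ((1 + δ) / 2)) := by
  set K : ℝ := 64 * (1 + 3 * (3 ^ (2 * ε) / (2 * ε))) with hK
  have hK0 : 0 ≤ K := by positivity
  refine ⟨Real.sqrt K, Real.sqrt_nonneg _, fun k => ?_⟩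
  set N : ℝ := ((k + 1 : ℕ) : ℝ) with hN
  have hNk : N = (k : ℝ) + 1 := by rw [hN]; push_cast; ring
  have hk0 : (0 : ℝ) ≤ k := Nat.cast_nonneg k
  have hN1 : 1 ≤ N := by rw [hNk]; linarith
  have hN0 : 0 < N := by linarith
  have h1 : Real.log ((k : ℝ) + 3) ≤ (3 ^ (2 * ε) / (2 * ε)) * N ^ (2 * ε) := by
    have h2 : Real.log ((k : ℝ) + 3) ≤ Real.log (3 * N) := by
      apply Real.log_le_log (by positivity)
      rw [hNk]; linarith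
    have h3 := Real.log_le_rpow_div (x := 3 * N) (ε := 2 * ε) (by positivity) (by positivity)
    rw [Real.mul_rpow (by norm_num) hN0.le] at h3
    calc Real.log ((k : ℝ) + 3) ≤ Real.log (3 * N) := h2
      _ ≤ 3 ^ (2 * ε) * N ^ (2 * ε) / (2 * ε) := h3
      _ = _ := by ring
  have h2 : N ^ (2 * ε) ≤ N ^ (δ + 2 * ε) := Real.rpow_le_rpow_of_exponent_le hN1 (by linarith)
  have h3 : N ^ δ ≤ N ^ (δ + 2 * ε) := Real.rpow_le_rpow_of_exponent_le hN1 (by linarith)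
  have h4 : 32 * ((k : ℝ) + 2) * (((k : ℝ) + 1) ^ δ + 3 * Real.log ((k : ℝ) + 3)) ≤
      K * (N ^ ε * N ^ ((1 + δ) / 2)) ^ 2 := by
    have h5 : (k : ℝ) + 2 ≤ 2 * N := by rw [hNk]; linarith
    have h6 : (N ^ ε * N ^ ((1 + δ) / 2)) ^ 2 = N ^ (δ + 2 * ε) * N := by
      rw [mul_pow, ← Real.rpow_natCast (N ^ ε), ← Real.rpow_mul hN0.le,
        ← Real.rpow_natCast (N ^ ((1 + δ) / 2)), ← Real.rpow_mul hN0.le, ← Real.rpow_add hN0]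
      nth_rewrite 3 [← Real.rpow_one N]
      rw [← Real.rpow_add hN0]
      congr 1
      push_cast
      ring
    rw [h6, ← hNk]
    have h7 := log_pos' k
    calc 32 * ((k : ℝ) + 2) * (N ^ δ + 3 * Real.log ((k : ℝ) + 3))
        ≤ 32 * (2 * N) * (N ^ (δ + 2 * ε) + 3 * ((3 ^ (2 * ε) / (2 * ε)) * N ^ (δ + 2 * ε))) := by
          gcongr
          exact h1.trans (by gcongr)
      _ = K * (N ^ (δ + 2 * ε) * N) := by rw [hK]; ring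
  unfold u3
  calc Real.sqrt (32 * ((k : ℝ) + 2) * (((k : ℝ) + 1) ^ δ + 3 * Real.log ((k : ℝ) + 3)))
      ≤ Real.sqrt (K * (N ^ ε * N ^ ((1 + δ) / 2)) ^ 2) := Real.sqrt_le_sqrt h4
    _ = Real.sqrt K * (N ^ ε * N ^ ((1 + δ) / 2)) := by
        rw [Real.sqrt_mul hK0, Real.sqrt_sq (by positivity)]

/-- the number of frequencies -/
noncomputable def M3 (δ : ℝ) (k : ℕ) : ℕ := ⌊Real.exp (((k : ℝ) + 1) ^ δ) + 1⌋₊

/-- the exceptional events -/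
def E3 (κ δ : ℝ) (k : ℕ) : Set (ℕ → unitInterval) :=
  {θ | ∃ a : ℕ → ℂ, 4 * u3 δ k * n1 (M3 δ k) a +
      2 * ∑ n ∈ Icc (k + 1) (2 * (k + 1)),
        (∫ r in (0 : ℝ)..1, ‖F (M3 δ k) a (fr κ n r)‖) <
        ∑ n ∈ Icc (k + 1) (2 * (k + 1)), ‖F (M3 δ k) a (fr κ n (θ n))‖}

theorem E3_le (hF : S_FIN) (κ : ℝ) (δ : ℝ) (k : ℕ) :
    Pr (E3 κ δ k) ≤ ENNReal.ofReal (32 * (1 / ((k : ℝ) + 1) ^ 2)) := by
  have hk0 : (0 : ℝ) ≤ k := Nat.cast_nonneg k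
  have hlog := log_pos' k
  have hcast : (((k + 1 : ℕ) : ℝ) + 1) = (k : ℝ) + 2 := by push_cast; ring
  have hX0 : 0 < ((k : ℝ) + 1) ^ δ := by positivity
  set X : ℝ := ((k : ℝ) + 1) ^ δ with hX
  have h1 := hF κ (k + 1) (M3 δ k) (u3 δ k) (by omega) (Real.sqrt_nonneg _) (by
    rw [u3_sq, hcast, ← hX]
    have h2 : (1 : ℝ) ≤ X + 3 * Real.log ((k : ℝ) + 3) := by linarith
    nlinarith)
  refine h1.trans (ENNReal.ofReal_le_ofReal ?_)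
  rw [u3_sq, hcast, ← hX]
  have h2 : 32 * ((k : ℝ) + 2) * (X + 3 * Real.log ((k : ℝ) + 3)) / (32 * ((k : ℝ) + 2)) =
      X + Real.log ((k : ℝ) + 3) * ((3 : ℕ) : ℝ) := by
    push_cast
    field_simp
  rw [h2, Real.exp_neg, Real.exp_add, Real.exp_mul, Real.exp_log (by positivity),
    Real.rpow_natCast]
  have h3 : (M3 δ k : ℝ) ≤ 2 * Real.exp X := by
    have h4 : (M3 δ k : ℝ) ≤ Real.exp X + 1 := Nat.floor_le (by positivity)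
    have h5 : (1 : ℝ) ≤ Real.exp X := Real.one_le_exp hX0.le
    linarith
  have heX := Real.exp_pos X
  calc 16 * (M3 δ k : ℝ) * (Real.exp X * ((k : ℝ) + 3) ^ 3)⁻¹
      ≤ 16 * (2 * Real.exp X) * (Real.exp X * ((k : ℝ) + 3) ^ 3)⁻¹ := by gcongr
    _ = 32 * (1 / ((k : ℝ) + 3) ^ 3) := by
        field_simp
        norm_num
    _ ≤ 32 * (1 / ((k : ℝ) + 1) ^ 2) := by
        gcongr
        calc ((k : ℝ) + 1) ^ 2 ≤ ((k : ℝ) + 3) ^ 2 := by gcongr; norm_num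
          _ ≤ ((k : ℝ) + 3) ^ 3 := pow_le_pow_right₀ (by linarith) (by norm_num)

theorem E3_sum (hF : S_FIN) (κ δ : ℝ) : ∑' k, Pr (E3 κ δ k) ≠ ⊤ := by
  have h1 : Summable fun k : ℕ => 32 * (1 / ((k : ℝ) + 1) ^ 2) := by
    have h2 := (summable_nat_add_iff 1).2 (Real.summable_one_div_nat_pow.2 (by norm_num : 1 < 2))
    have h3 := h2.mul_left (32 : ℝ)
    refine h3.congr fun k => ?_
    push_cast
    rfl
  refine ne_top_of_le_ne_top h1.tsum_ofReal_ne_top (ENNReal.tsum_le_tsum fun k => E3_le hF κ δ k)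

theorem alm3 (hF : S_FIN) : S_ALM3 := by
  intro κ s hs hMean
  have key : ∀ δ : ℚ, ∀ᵐ θ ∂Pr, 0 ≤ (δ : ℝ) → ∀ ε : ℝ, 0 < ε → ∃ C : ℝ, 0 ≤ C ∧
      ∀ (N M : ℕ) (a : ℕ → ℂ), 1 ≤ N → (M : ℝ) ≤ Real.exp ((N : ℝ) ^ (δ : ℝ)) + 1 →
      ∑ n ∈ Icc N (2 * N), ‖F M a (fr κ n (θ n))‖ ≤
      C * (N : ℝ) ^ ε * ((N : ℝ) * n2 M a + ((N : ℝ) ^ s + (N : ℝ) ^ ((1 + (δ : ℝ)) / 2)) * n1 M a) := by
    intro δ
    filter_upwards [ae_eventually_notMem (E3_sum hF κ (δ : ℝ))] with θ hθ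
    obtain ⟨K₀, hK₀⟩ := Filter.eventually_atTop.1 hθ
    intro hδ ε hε
    obtain ⟨C₁, hC₁, hC⟩ := hMean ε hε
    obtain ⟨K, hK0, hK⟩ := u3_le hδ hε
    refine ⟨4 * K + 2 * C₁ + ((K₀ : ℝ) + 1), by positivity, fun N M a hN hM => ?_⟩
    obtain ⟨k, rfl⟩ : ∃ k, N = k + 1 := ⟨N - 1, by omega⟩
    have hN1 : (1 : ℝ) ≤ ((k + 1 : ℕ) : ℝ) := by exact_mod_cast hN
    have hN0 : (0 : ℝ) < ((k + 1 : ℕ) : ℝ) := by linarith
    have hMle : M ≤ M3 (δ : ℝ) k := by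
      unfold M3
      rw [Nat.le_floor_iff (by positivity)]
      push_cast at hM
      exact hM
    have hn1 : 0 ≤ n1 M a := sum_nonneg fun t _ => norm_nonneg _
    have hn2 : 0 ≤ n2 M a := Real.sqrt_nonneg _
    have hNe : 1 ≤ ((k + 1 : ℕ) : ℝ) ^ ε := Real.one_le_rpow hN1 hε.le
    have hNs1 : 1 ≤ ((k + 1 : ℕ) : ℝ) ^ s := Real.one_le_rpow hN1 (by linarith)
    have hNd0 : 0 ≤ ((k + 1 : ℕ) : ℝ) ^ ((1 + (δ : ℝ)) / 2) := by positivity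
    set Q : ℝ := ((k + 1 : ℕ) : ℝ) ^ ((1 + (δ : ℝ)) / 2) with hQ
    set P : ℝ := ((k + 1 : ℕ) : ℝ) ^ ε * (((k + 1 : ℕ) : ℝ) * n2 M a +
      (((k + 1 : ℕ) : ℝ) ^ s + Q) * n1 M a) with hP
    have hP1 : ((k + 1 : ℕ) : ℝ) ^ ε * Q * n1 M a ≤ P := by
      rw [hP, mul_assoc]
      gcongr
      have h1 : 0 ≤ ((k + 1 : ℕ) : ℝ) * n2 M a := by positivity
      have h2 : Q * n1 M a ≤ (((k + 1 : ℕ) : ℝ) ^ s + Q) * n1 M a := by
        gcongr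
        linarith
      linarith
    have hP2 : n1 M a ≤ P := by
      rw [hP]
      have h1 : 0 ≤ ((k + 1 : ℕ) : ℝ) * n2 M a := by positivity
      have h2 : n1 M a ≤ (((k + 1 : ℕ) : ℝ) ^ s + Q) * n1 M a :=
        le_mul_of_one_le_left hn1 (by linarith)
      calc n1 M a ≤ ((k + 1 : ℕ) : ℝ) * n2 M a + (((k + 1 : ℕ) : ℝ) ^ s + Q) * n1 M a := by linarith
        _ ≤ _ := le_mul_of_one_le_left (by positivity) hNe
    have hP3 : ((k + 1 : ℕ) : ℝ) ^ ε * (((k + 1 : ℕ) : ℝ) * n2 M a +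
        ((k + 1 : ℕ) : ℝ) ^ s * n1 M a) ≤ P := by
      rw [hP]
      gcongr
      linarith
    have hP0 : 0 ≤ P := hn1.trans hP2
    have hgoal : (4 * K + 2 * C₁ + ((K₀ : ℝ) + 1)) * ((k + 1 : ℕ) : ℝ) ^ ε *
        (((k + 1 : ℕ) : ℝ) * n2 M a + (((k + 1 : ℕ) : ℝ) ^ s + Q) * n1 M a) =
        4 * K * P + 2 * C₁ * P + ((K₀ : ℝ) + 1) * P := by
      rw [hP]; ring
    rw [hgoal]
    by_cases hk : K₀ ≤ k
    · have h1 := hK₀ k hk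
      have h2 : ∑ n ∈ Icc (k + 1) (2 * (k + 1)), ‖F M a (fr κ n (θ n))‖ ≤
          4 * u3 δ k * n1 M a + 2 * ∑ n ∈ Icc (k + 1) (2 * (k + 1)),
            (∫ r in (0 : ℝ)..1, ‖F M a (fr κ n r)‖) := by
        by_contra hcon
        push Not at hcon
        apply h1
        refine ⟨cut M a, ?_⟩
        simp only [F_cut hMle, n1_cut hMle]
        exact hcon
      have h3 := hC (k + 1) M a hN
      have h4 := hK k
      have h5 : 4 * u3 δ k * n1 M a ≤ 4 * K * P := by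
        calc 4 * u3 δ k * n1 M a ≤ 4 * (K * (((k + 1 : ℕ) : ℝ) ^ ε * Q)) * n1 M a := by gcongr
          _ = 4 * K * (((k + 1 : ℕ) : ℝ) ^ ε * Q * n1 M a) := by ring
          _ ≤ 4 * K * P := by gcongr
      have h6 : C₁ * ((k + 1 : ℕ) : ℝ) ^ ε * (((k + 1 : ℕ) : ℝ) * n2 M a +
          ((k + 1 : ℕ) : ℝ) ^ s * n1 M a) ≤ C₁ * P := by
        rw [mul_assoc]
        gcongr
      have h7 : 0 ≤ ((K₀ : ℝ) + 1) * P := by positivity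
      linarith
    · have h1 : ∑ n ∈ Icc (k + 1) (2 * (k + 1)), ‖F M a (fr κ n (θ n))‖ ≤
          ((K₀ : ℝ) + 1) * n1 M a := by
        calc ∑ n ∈ Icc (k + 1) (2 * (k + 1)), ‖F M a (fr κ n (θ n))‖
            ≤ ∑ n ∈ Icc (k + 1) (2 * (k + 1)), n1 M a := sum_le_sum fun n _ => norm_F_le _ _ _
          _ = ((k + 2 : ℕ) : ℝ) * n1 M a := by
              rw [sum_const, Nat.card_Icc, nsmul_eq_mul]
              congr 2
              omega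
          _ ≤ _ := by
              gcongr
              have : k + 2 ≤ K₀ + 1 := by omega
              exact_mod_cast this
      have h2 : ((K₀ : ℝ) + 1) * n1 M a ≤ ((K₀ : ℝ) + 1) * P := by gcongr
      have h3 : 0 ≤ 4 * K * P := by positivity
      have h4 : 0 ≤ 2 * C₁ * P := by positivity
      linarith
  filter_upwards [ae_all_iff.2 key] with θ hθ δ hδ ε hε
  obtain ⟨δ', hδ1, hδ2⟩ := exists_rat_btwn (show δ < δ + ε by linarith)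
  obtain ⟨C, hC0, hC⟩ := hθ δ' (hδ.trans hδ1.le) (ε / 2) (by linarith)
  refine ⟨C, hC0, fun N M a hN hM => ?_⟩
  have hN1 : (1 : ℝ) ≤ N := by exact_mod_cast hN
  have hN0 : (0 : ℝ) < N := by linarith
  have hn1 : 0 ≤ n1 M a := sum_nonneg fun t _ => norm_nonneg _
  have hn2 : 0 ≤ n2 M a := Real.sqrt_nonneg _
  have hM' : (M : ℝ) ≤ Real.exp ((N : ℝ) ^ (δ' : ℝ)) + 1 := by
    refine hM.trans ?_
    have h1 : (N : ℝ) ^ δ ≤ (N : ℝ) ^ (δ' : ℝ) :=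
      Real.rpow_le_rpow_of_exponent_le hN1 hδ1.le
    have h2 := Real.exp_le_exp.2 h1
    linarith
  refine (hC N M a hN hM').trans ?_
  have h1 : (N : ℝ) ^ ((1 + (δ' : ℝ)) / 2) ≤ (N : ℝ) ^ (ε / 2) * (N : ℝ) ^ ((1 + δ) / 2) := by
    rw [← Real.rpow_add hN0]
    exact Real.rpow_le_rpow_of_exponent_le hN1 (by linarith)
  have h2 : 1 ≤ (N : ℝ) ^ (ε / 2) := Real.one_le_rpow hN1 (by linarith)
  have h3 : (N : ℝ) ^ ε = (N : ℝ) ^ (ε / 2) * (N : ℝ) ^ (ε / 2) := by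
    rw [← Real.rpow_add hN0]
    congr 1
    ring
  set e2 : ℝ := (N : ℝ) ^ (ε / 2) with he2
  set q : ℝ := (N : ℝ) ^ ((1 + δ) / 2) with hq
  have hq0 : 0 ≤ q := by positivity
  have hs0 : 0 ≤ (N : ℝ) ^ s := by positivity
  rw [h3]
  have h4 : (N : ℝ) * n2 M a + ((N : ℝ) ^ s + (N : ℝ) ^ ((1 + (δ' : ℝ)) / 2)) * n1 M a ≤
      e2 * ((N : ℝ) * n2 M a + ((N : ℝ) ^ s + q) * n1 M a) := by
    have h5 : (N : ℝ) * n2 M a ≤ e2 * ((N : ℝ) * n2 M a) :=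
      le_mul_of_one_le_left (by positivity) h2
    have h6 : (N : ℝ) ^ s + (N : ℝ) ^ ((1 + (δ' : ℝ)) / 2) ≤ e2 * ((N : ℝ) ^ s + q) := by
      have h7 : (N : ℝ) ^ s ≤ e2 * (N : ℝ) ^ s := le_mul_of_one_le_left hs0 h2
      linarith
    have h8 : ((N : ℝ) ^ s + (N : ℝ) ^ ((1 + (δ' : ℝ)) / 2)) * n1 M a ≤
        e2 * ((N : ℝ) ^ s + q) * n1 M a := by gcongr
    linarith
  calc C * e2 * ((N : ℝ) * n2 M a + ((N : ℝ) ^ s + (N : ℝ) ^ ((1 + (δ' : ℝ)) / 2)) * n1 M a)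
      ≤ C * e2 * (e2 * ((N : ℝ) * n2 M a + ((N : ℝ) ^ s + q) * n1 M a)) := by gcongr
    _ = _ := by ring

end Pool.Agent.P8H71.RF
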