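import Pool.Agent.P8H71.RF.Tay
import Pool.Agent.P8H16.RF.Stm3

/-! Package OPT of the project RF: the range of `T` is optimal. -/

set_option autoImplicit false

namespace Pool.Agent.P8H71.RF

open Finset MeasureTheory Pool.Agent.P8H16.RF

/-- real signs -/
noncomputable def rs (D : Finset ℕ) (n : ℕ) : ℝ := if n ∈ D then -1 else 1

/-- the signed sum -/
noncomputable def SS (a : ℕ → ℝ) (G D : Finset ℕ) : ℝ := ∑ n ∈ G, rs D n * a n

/-- the sum of the squares -/
noncomputable def AA (a : ℕ → ℝ) (G : Finset ℕ) : ℝ := ∑ n ∈ G, a n ^ 2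

theorem AA_nonneg (a : ℕ → ℝ) (G : Finset ℕ) : 0 ≤ AA a G := sum_nonneg fun _ _ => sq_nonneg _

theorem SS_insert1 (a : ℕ → ℝ) {G D : Finset ℕ} {j : ℕ} (hj : j ∉ G) (hD : D ⊆ G) :
    SS a (insert j G) D = SS a G D + a j := by
  unfold SS
  rw [sum_insert hj]
  have h1 : rs D j = 1 := if_neg fun h => hj (hD h)
  rw [h1]
  ring

theorem SS_insert2 (a : ℕ → ℝ) {G D : Finset ℕ} {j : ℕ} (hj : j ∉ G) :
    SS a (insert j G) (insert j D) = SS a G D - a j := by
  unfold SS
  rw [sum_insert hj]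
  have h1 : rs (insert j D) j = -1 := if_pos (mem_insert_self j D)
  have h2 : ∑ n ∈ G, rs (insert j D) n * a n = ∑ n ∈ G, rs D n * a n := by
    refine sum_congr rfl fun n hn => ?_
    have hnj : n ≠ j := fun h => hj (h ▸ hn)
    unfold rs
    simp only [mem_insert, hnj, false_or]
  rw [h1, h2]
  ring

theorem mom2 (a : ℕ → ℝ) (G : Finset ℕ) :
    ∑ D ∈ G.powerset, SS a G D ^ 2 = 2 ^ G.card * AA a G := by
  induction G using Finset.induction_on with
  | empty => simp [SS, AA]
  | insert j G hj ih =>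
    rw [sum_powerset_insert hj, card_insert_of_notMem hj, ← sum_add_distrib]
    have h1 : ∀ D ∈ G.powerset, SS a (insert j G) D ^ 2 + SS a (insert j G) (insert j D) ^ 2 =
        2 * SS a G D ^ 2 + 2 * a j ^ 2 := by
      intro D hD
      rw [SS_insert1 a hj (mem_powerset.1 hD), SS_insert2 a hj]
      ring
    rw [sum_congr rfl h1, sum_add_distrib, ← mul_sum, ih, sum_const, card_powerset, nsmul_eq_mul]
    have h2 : AA a (insert j G) = a j ^ 2 + AA a G := by unfold AA; rw [sum_insert hj]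
    rw [h2]
    push_cast
    ring

theorem mom4 (a : ℕ → ℝ) (G : Finset ℕ) :
    ∑ D ∈ G.powerset, SS a G D ^ 4 ≤ 3 * 2 ^ G.card * AA a G ^ 2 := by
  induction G using Finset.induction_on with
  | empty => simp [SS, AA]
  | insert j G hj ih =>
    rw [sum_powerset_insert hj, card_insert_of_notMem hj, ← sum_add_distrib]
    have h1 : ∀ D ∈ G.powerset, SS a (insert j G) D ^ 4 + SS a (insert j G) (insert j D) ^ 4 =
        2 * SS a G D ^ 4 + 12 * a j ^ 2 * SS a G D ^ 2 + 2 * a j ^ 4 := by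
      intro D hD
      rw [SS_insert1 a hj (mem_powerset.1 hD), SS_insert2 a hj]
      ring
    rw [sum_congr rfl h1, sum_add_distrib, sum_add_distrib, ← mul_sum, ← mul_sum, mom2, sum_const,
      card_powerset, nsmul_eq_mul]
    have h2 : AA a (insert j G) = a j ^ 2 + AA a G := by unfold AA; rw [sum_insert hj]
    rw [h2]
    push_cast
    have h3 : (0 : ℝ) ≤ 2 ^ G.card * a j ^ 4 := by positivity
    rw [pow_succ (2 : ℝ)]
    nlinarith

theorem SS_compl (a : ℕ → ℝ) (G D : Finset ℕ) : SS a G (G \ D) = -SS a G D := by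
  unfold SS
  rw [← sum_neg_distrib]
  refine sum_congr rfl fun n hn => ?_
  unfold rs
  by_cases h : n ∈ D <;> simp [h, hn]

/-- the number of sign patterns with a large sum -/
noncomputable def WW (a : ℕ → ℝ) (G : Finset ℕ) (y : ℝ) : ℕ :=
  (G.powerset.filter (fun D => y ≤ SS a G D)).card

theorem WW_anti (a : ℕ → ℝ) (G : Finset ℕ) {y z : ℝ} (h : y ≤ z) : WW a G z ≤ WW a G y := by
  unfold WW
  refine card_le_card fun D hD => ?_
  rw [mem_filter] at hD ⊢
  exact ⟨hD.1, h.trans hD.2⟩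

/-- Paley-Zygmund -/
theorem pz (a : ℕ → ℝ) (G : Finset ℕ) :
    3 * 2 ^ G.card ≤ 32 * (WW a G (Real.sqrt (AA a G) / 2) : ℝ) := by
  set A := AA a G with hA
  have hA0 : 0 ≤ A := AA_nonneg a G
  rcases hA0.eq_or_lt with h0 | hpos
  · -- all sums vanish
    have hz : ∀ n ∈ G, a n = 0 := by
      intro n hn
      have h1 := (sum_eq_zero_iff_of_nonneg (fun n _ => sq_nonneg (a n))).1 h0.symm n hn
      exact pow_eq_zero_iff (two_ne_zero) |>.1 h1
    have hall : G.powerset.filter (fun D => Real.sqrt A / 2 ≤ SS a G D) = G.powerset := by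
      refine filter_true_of_mem fun D _ => ?_
      rw [← h0, Real.sqrt_zero, zero_div]
      unfold SS
      refine le_of_eq (sum_eq_zero fun n hn => ?_).symm
      rw [hz n hn, mul_zero]
    unfold WW
    rw [hall, card_powerset]
    push_cast
    have : (0 : ℝ) ≤ 2 ^ G.card := by positivity
    linarith
  · set P := G.powerset.filter (fun D => A / 4 ≤ SS a G D ^ 2) with hP
    have hcs : (∑ D ∈ P, SS a G D ^ 2) ^ 2 ≤ (P.card : ℝ) * ∑ D ∈ P, (SS a G D ^ 2) ^ 2 :=
      sq_sum_le_card_mul_sum_sq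
    have h4 : ∑ D ∈ P, (SS a G D ^ 2) ^ 2 ≤ 3 * 2 ^ G.card * A ^ 2 := by
      refine le_trans ?_ (mom4 a G)
      have h5 : ∑ D ∈ P, (SS a G D ^ 2) ^ 2 = ∑ D ∈ P, SS a G D ^ 4 :=
        sum_congr rfl fun D _ => by ring
      rw [h5]
      exact sum_le_sum_of_subset_of_nonneg (filter_subset _ _) fun D _ _ => by positivity
    have h2 : 3 / 4 * 2 ^ G.card * A ≤ ∑ D ∈ P, SS a G D ^ 2 := by
      have h5 := sum_filter_add_sum_filter_not G.powerset (fun D => A / 4 ≤ SS a G D ^ 2)
        (fun D => SS a G D ^ 2)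
      rw [mom2] at h5
      have h6 : ∑ D ∈ G.powerset.filter (fun D => ¬ A / 4 ≤ SS a G D ^ 2), SS a G D ^ 2 ≤
          2 ^ G.card * (A / 4) := by
        calc ∑ D ∈ G.powerset.filter (fun D => ¬ A / 4 ≤ SS a G D ^ 2), SS a G D ^ 2
            ≤ ∑ D ∈ G.powerset.filter (fun D => ¬ A / 4 ≤ SS a G D ^ 2), A / 4 := by
              refine sum_le_sum fun D hD => ?_
              rw [mem_filter, not_le] at hD
              exact hD.2.le
          _ ≤ ∑ D ∈ G.powerset, A / 4 :=
              sum_le_sum_of_subset_of_nonneg (filter_subset _ _) fun _ _ _ => by positivity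
          _ = 2 ^ G.card * (A / 4) := by rw [sum_const, card_powerset, nsmul_eq_mul]; push_cast; ring
      rw [← hP, ← hA] at h5
      linarith
    have h5 : (3 / 4 * 2 ^ G.card * A) ^ 2 ≤ (P.card : ℝ) * (3 * 2 ^ G.card * A ^ 2) := by
      calc (3 / 4 * 2 ^ G.card * A) ^ 2 ≤ (∑ D ∈ P, SS a G D ^ 2) ^ 2 := by gcongr
        _ ≤ _ := hcs.trans (by gcongr)
    have h6 : 3 * 2 ^ G.card ≤ 16 * (P.card : ℝ) := by
      have h7 : 0 < 3 * 2 ^ G.card * A ^ 2 / 16 := by positivity
      have h8 : (3 * 2 ^ G.card) * (3 * 2 ^ G.card * A ^ 2 / 16) ≤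
          (16 * (P.card : ℝ)) * (3 * 2 ^ G.card * A ^ 2 / 16) := by
        calc (3 * 2 ^ G.card) * (3 * 2 ^ G.card * A ^ 2 / 16) = (3 / 4 * 2 ^ G.card * A) ^ 2 := by
              ring
          _ ≤ (P.card : ℝ) * (3 * 2 ^ G.card * A ^ 2) := h5
          _ = _ := by ring
      exact le_of_mul_le_mul_right h8 h7
    -- symmetry
    set P1 := G.powerset.filter (fun D => Real.sqrt A / 2 ≤ SS a G D) with hP1
    set P2 := G.powerset.filter (fun D => SS a G D ≤ -(Real.sqrt A / 2)) with hP2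
    have h7 : P ⊆ P1 ∪ P2 := by
      intro D hD
      rw [hP, mem_filter] at hD
      rw [mem_union, hP1, hP2, mem_filter, mem_filter]
      have h8 : (Real.sqrt A / 2) ^ 2 ≤ SS a G D ^ 2 := by
        rw [div_pow, Real.sq_sqrt hA0]
        norm_num
        exact hD.2
      have h9 : Real.sqrt A / 2 ≤ |SS a G D| := by
        by_contra hcon
        push Not at hcon
        have h10 := pow_lt_pow_left₀ hcon (abs_nonneg _) two_ne_zero
        rw [sq_abs] at h10
        linarith
      rcases le_abs.1 h9 with h | h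
      · exact Or.inl ⟨hD.1, h⟩
      · exact Or.inr ⟨hD.1, by linarith⟩
    have h8 : P2.card = P1.card := by
      refine card_nbij' (fun D => G \ D) (fun D => G \ D) ?_ ?_ ?_ ?_
      · intro D hD
        rw [mem_coe, hP2, mem_filter, mem_powerset] at hD
        rw [mem_coe, hP1, mem_filter, mem_powerset, SS_compl]
        exact ⟨sdiff_subset, by linarith [hD.2]⟩
      · intro D hD
        rw [mem_coe, hP1, mem_filter, mem_powerset] at hD
        rw [mem_coe, hP2, mem_filter, mem_powerset, SS_compl]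
        exact ⟨sdiff_subset, by linarith [hD.2]⟩
      · intro D hD
        rw [mem_coe, hP2, mem_filter, mem_powerset] at hD
        exact Finset.sdiff_sdiff_eq_self hD.1
      · intro D hD
        rw [mem_coe, hP1, mem_filter, mem_powerset] at hD
        exact Finset.sdiff_sdiff_eq_self hD.1
    have h9 : P.card ≤ P1.card + P2.card := (card_le_card h7).trans (card_union_le _ _)
    have h10 : (P.card : ℝ) ≤ 2 * P1.card := by
      rw [h8] at h9
      have : P.card ≤ 2 * P1.card := by omega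
      exact_mod_cast this
    have h11 : WW a G (Real.sqrt A / 2) = P1.card := rfl
    rw [h11]
    linarith

/-- products -/
theorem WW_mul (a : ℕ → ℝ) {G H : Finset ℕ} (hGH : Disjoint G H) (y z : ℝ) :
    WW a G y * WW a H z ≤ WW a (G ∪ H) (y + z) := by
  unfold WW
  rw [← card_product]
  refine card_le_card_of_injOn (fun p => p.1 ∪ p.2) ?_ ?_
  · rintro ⟨D1, D2⟩ hD
    rw [mem_coe, mem_product, mem_filter, mem_filter, mem_powerset, mem_powerset] at hD
    obtain ⟨⟨h1, h2⟩, h3, h4⟩ := hD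
    rw [mem_coe, mem_filter, mem_powerset]
    refine ⟨union_subset_union h1 h3, ?_⟩
    have h5 : SS a (G ∪ H) (D1 ∪ D2) = SS a G D1 + SS a H D2 := by
      unfold SS
      rw [sum_union hGH]
      congr 1
      · refine sum_congr rfl fun n hn => ?_
        have : n ∉ D2 := fun h => (disjoint_left.1 hGH hn) (h3 h)
        unfold rs
        simp only [mem_union, this, or_false]
      · refine sum_congr rfl fun n hn => ?_
        have : n ∉ D1 := fun h => (disjoint_left.1 hGH (h1 h)) hn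
        unfold rs
        simp only [mem_union, this, false_or]
    simp only at h2 h4 ⊢
    rw [h5]
    linarith
  · rintro ⟨D1, D2⟩ hD ⟨E1, E2⟩ hE h
    rw [mem_coe, mem_product, mem_filter, mem_filter, mem_powerset, mem_powerset] at hD hE
    obtain ⟨⟨h1, -⟩, h3, -⟩ := hD
    obtain ⟨⟨h1', -⟩, h3', -⟩ := hE
    simp only at h h1 h3 h1' h3'
    have hd := disjoint_left.1 hGH
    refine Prod.ext ?_ ?_
    · ext n
      have h5 : n ∈ D1 ∪ D2 ↔ n ∈ E1 ∪ E2 := by rw [h]
      rw [mem_union, mem_union] at h5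
      constructor
      · intro hn
        rcases h5.1 (Or.inl hn) with h6 | h6
        · exact h6
        · exact absurd (h3' h6) (hd (h1 hn))
      · intro hn
        rcases h5.2 (Or.inl hn) with h6 | h6
        · exact h6
        · exact absurd (h3 h6) (hd (h1' hn))
    · ext n
      have h5 : n ∈ D1 ∪ D2 ↔ n ∈ E1 ∪ E2 := by rw [h]
      rw [mem_union, mem_union] at h5
      constructor
      · intro hn
        rcases h5.1 (Or.inr hn) with h6 | h6
        · exact absurd (h3 hn) (hd (h1' h6))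
        · exact h6
      · intro hn
        rcases h5.2 (Or.inr hn) with h6 | h6
        · exact absurd (h3' hn) (hd (h1 h6))
        · exact h6

theorem AA_union (a : ℕ → ℝ) {G H : Finset ℕ} (hGH : Disjoint G H) :
    AA a (G ∪ H) = AA a G + AA a H := by
  unfold AA
  rw [sum_union hGH]

/-- blocks -/
theorem blocks (a : ℕ → ℝ) (ha : ∀ n, |a n| ≤ 1) (N g : ℕ) (hg : 1 ≤ g) : ∀ i : ℕ,
    (3 / 32 : ℝ) ^ i * 2 ^ (i * g) ≤
      WW a (Ico N (N + i * g)) (AA a (Ico N (N + i * g)) / (2 * Real.sqrt g)) := by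
  have hg0 : (0 : ℝ) < g := by exact_mod_cast hg
  have hsg : 0 < Real.sqrt g := Real.sqrt_pos.2 hg0
  intro i
  induction i with
  | zero =>
    simp [WW, AA, SS]
  | succ i ih =>
    have hun : Ico N (N + (i + 1) * g) = Ico N (N + i * g) ∪ Ico (N + i * g) (N + (i + 1) * g) := by
      rw [Ico_union_Ico_eq_Ico (by omega) (by nlinarith)]
    have hdis : Disjoint (Ico N (N + i * g)) (Ico (N + i * g) (N + (i + 1) * g)) :=
      Ico_disjoint_Ico_consecutive _ _ _
    set G := Ico (N + i * g) (N + (i + 1) * g) with hG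
    have hcard : G.card = g := by
      rw [hG, Nat.card_Ico]
      have : (i + 1) * g = i * g + g := by ring
      omega
    rw [hun, AA_union a hdis, add_div]
    have h1 := WW_mul a hdis (AA a (Ico N (N + i * g)) / (2 * Real.sqrt g))
      (AA a G / (2 * Real.sqrt g))
    have h2 : AA a G / (2 * Real.sqrt g) ≤ Real.sqrt (AA a G) / 2 := by
      have hAle : AA a G ≤ g := by
        calc AA a G ≤ ∑ n ∈ G, (1 : ℝ) := sum_le_sum fun n _ => by
              have h3 := ha n
              rw [← sq_abs]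
              exact pow_le_one₀ (abs_nonneg _) h3
          _ = g := by rw [sum_const, hcard]; simp
      have hA0 := AA_nonneg a G
      have h3 : Real.sqrt (AA a G) ≤ Real.sqrt g := Real.sqrt_le_sqrt hAle
      rw [div_le_div_iff₀ (by positivity) (by norm_num)]
      have h4 : AA a G = Real.sqrt (AA a G) * Real.sqrt (AA a G) := (Real.mul_self_sqrt hA0).symm
      have h5 : 0 ≤ Real.sqrt (AA a G) := Real.sqrt_nonneg _
      calc AA a G * 2 = Real.sqrt (AA a G) * Real.sqrt (AA a G) * 2 := by rw [← h4]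
        _ ≤ Real.sqrt (AA a G) * Real.sqrt g * 2 := by gcongr
        _ = Real.sqrt (AA a G) * (2 * Real.sqrt g) := by ring
    have h3 := WW_anti a G h2
    have h4 := pz a G
    rw [hcard] at h4
    have h5 : (3 / 32 : ℝ) * 2 ^ g ≤ WW a G (AA a G / (2 * Real.sqrt g)) := by
      have h6 : (WW a G (Real.sqrt (AA a G) / 2) : ℝ) ≤ WW a G (AA a G / (2 * Real.sqrt g)) := by
        exact_mod_cast h3
      linarith
    calc (3 / 32 : ℝ) ^ (i + 1) * 2 ^ ((i + 1) * g)
        = ((3 / 32 : ℝ) ^ i * 2 ^ (i * g)) * ((3 / 32 : ℝ) * 2 ^ g) := by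
          rw [pow_succ, add_mul, one_mul, pow_add]; ring
      _ ≤ (WW a (Ico N (N + i * g)) (AA a (Ico N (N + i * g)) / (2 * Real.sqrt g)) : ℝ) *
          (WW a G (AA a G / (2 * Real.sqrt g)) : ℝ) := by
          exact mul_le_mul ih h5 (by positivity) (Nat.cast_nonneg _)
      _ ≤ _ := by exact_mod_cast h1

theorem rs_cases (D : Finset ℕ) (n : ℕ) : rs D n = 1 ∨ rs D n = -1 := by
  unfold rs
  split_ifs
  · exact Or.inr rfl
  · exact Or.inl rfl

/-- choice of the real or the imaginary part -/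
theorem choice (N : ℕ) (y : ℕ → ℝ) (J : Finset ℕ) (hJ : Icc N (2 * N) ⊆ J) :
    ∃ a : ℕ → ℝ, (∀ n, |a n| ≤ 1) ∧ ((N : ℝ) + 1) / 2 ≤ AA a J ∧
      ∀ D, SS a J D ≤ ‖∑ n ∈ Icc N (2 * N), ((rs D n : ℝ) : ℂ) * e (y n)‖ := by
  classical
  have hn1 : ∀ n, (e (y n)).re ^ 2 + (e (y n)).im ^ 2 = 1 := by
    intro n
    have h1 : ‖e (y n)‖ = 1 := Complex.norm_exp_ofReal_mul_I _
    have h2 := Complex.sq_norm (e (y n))
    rw [h1, Complex.normSq_apply] at h2
    nlinarith
  have hext : ∀ f : ℕ → ℝ, ∑ n ∈ J, (if n ∈ Icc N (2 * N) then f n else 0) =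
      ∑ n ∈ Icc N (2 * N), f n := by
    intro f
    rw [← sum_filter]
    congr 1
    ext n
    rw [mem_filter]
    exact ⟨fun h => h.2, fun h => ⟨hJ h, h⟩⟩
  have hAA : ∀ f : ℕ → ℝ, AA (fun n => if n ∈ Icc N (2 * N) then f n else 0) J =
      ∑ n ∈ Icc N (2 * N), f n ^ 2 := by
    intro f
    unfold AA
    rw [← hext (fun n => f n ^ 2)]
    refine sum_congr rfl fun n _ => ?_
    by_cases h : n ∈ Icc N (2 * N)
    · simp only [if_pos h]
    · simp only [if_neg h]
      ring
  have hSS : ∀ (f : ℕ → ℝ) (D : Finset ℕ), SS (fun n => if n ∈ Icc N (2 * N) then f n else 0) J D =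
      ∑ n ∈ Icc N (2 * N), rs D n * f n := by
    intro f D
    unfold SS
    rw [← hext (fun n => rs D n * f n)]
    refine sum_congr rfl fun n _ => ?_
    by_cases h : n ∈ Icc N (2 * N)
    · simp only [if_pos h]
    · simp only [if_neg h]
      ring
  have htot : ∑ n ∈ Icc N (2 * N), (e (y n)).re ^ 2 + ∑ n ∈ Icc N (2 * N), (e (y n)).im ^ 2 =
      (N : ℝ) + 1 := by
    rw [← sum_add_distrib, sum_congr rfl fun n _ => hn1 n, sum_const, Nat.card_Icc, nsmul_eq_mul,
      mul_one]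
    have : 2 * N + 1 - N = N + 1 := by omega
    rw [this]
    push_cast
    ring
  rcases le_total (∑ n ∈ Icc N (2 * N), (e (y n)).im ^ 2) (∑ n ∈ Icc N (2 * N), (e (y n)).re ^ 2)
    with hc | hc
  · refine ⟨fun n => if n ∈ Icc N (2 * N) then (e (y n)).re else 0, fun n => ?_, ?_, fun D => ?_⟩
    · simp only
      split_ifs
      · rw [← sq_le_one_iff_abs_le_one]
        have := hn1 n
        nlinarith [sq_nonneg (e (y n)).im]
      · simp
    · rw [hAA (fun n => (e (y n)).re)]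
      linarith
    · rw [hSS (fun n => (e (y n)).re)]
      refine le_trans (le_of_eq ?_) ((le_abs_self _).trans (Complex.abs_re_le_norm _))
      rw [Complex.re_sum]
      refine sum_congr rfl fun n _ => ?_
      rw [Complex.re_ofReal_mul]
  · refine ⟨fun n => if n ∈ Icc N (2 * N) then (e (y n)).im else 0, fun n => ?_, ?_, fun D => ?_⟩
    · simp only
      split_ifs
      · rw [← sq_le_one_iff_abs_le_one]
        have := hn1 n
        nlinarith [sq_nonneg (e (y n)).re]
      · simp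
    · rw [hAA (fun n => (e (y n)).im)]
      linarith
    · rw [hSS (fun n => (e (y n)).im)]
      refine le_trans (le_of_eq ?_) ((le_abs_self _).trans (Complex.abs_im_le_norm _))
      rw [Complex.im_sum]
      refine sum_congr rfl fun n _ => ?_
      rw [Complex.im_ofReal_mul]

theorem exp_neg_three : Real.exp (-3) ≤ 3 / 32 := by
  have h1 : Real.exp 3 = Real.exp 1 ^ 3 := by rw [← Real.exp_nat_mul]; norm_num
  have h2 := Real.exp_one_gt_d9
  have h3 : (32 : ℝ) / 3 ≤ Real.exp 3 := by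
    rw [h1]
    calc (32 : ℝ) / 3 ≤ 2.7 ^ 3 := by norm_num
      _ ≤ Real.exp 1 ^ 3 := by gcongr; linarith
  rw [Real.exp_neg, inv_eq_one_div, div_le_div_iff₀ (Real.exp_pos 3) (by norm_num)]
  linarith

theorem opt_large (σ ε B : ℝ) (hσ1 : 1 / 2 < σ) (hσ2 : σ < 1) (hε : 0 < ε) :
    ∀ᶠ N : ℕ in Filter.atTop, 1 ≤ N ∧ 16 ≤ (N : ℝ) ^ (2 - 2 * σ) ∧ 288 ≤ (N : ℝ) ^ ε ∧
      B * Real.log N ≤ (N : ℝ) ^ (2 * σ - 1 + ε) / 3 := by
  have ht : Filter.Tendsto (fun N : ℕ => (N : ℝ)) Filter.atTop Filter.atTop :=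
    tendsto_natCast_atTop_atTop
  have h1 := ((tendsto_rpow_atTop (by linarith : 0 < 2 - 2 * σ)).comp ht).eventually_ge_atTop 16
  have h2 := ((tendsto_rpow_atTop hε).comp ht).eventually_ge_atTop 288
  have h3 := (isLittleO_log_rpow_atTop (by linarith : 0 < 2 * σ - 1 + ε)).bound
    (show 0 < 1 / (3 * (|B| + 1)) by positivity)
  have h4 := ht.eventually h3
  filter_upwards [h1, h2, h4, Filter.eventually_ge_atTop 1] with N hN1 hN2 hN3 hN4
  refine ⟨hN4, hN1, hN2, ?_⟩
  have hNr : (1 : ℝ) ≤ N := by exact_mod_cast hN4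
  have hlog : 0 ≤ Real.log N := Real.log_nonneg hNr
  rw [Real.norm_of_nonneg hlog, Real.norm_of_nonneg (by positivity)] at hN3
  have hB0 : 0 ≤ |B| := abs_nonneg B
  have hX0 : 0 ≤ (N : ℝ) ^ (2 * σ - 1 + ε) := by positivity
  calc B * Real.log N ≤ (|B| + 1) * Real.log N := by
        have := le_abs_self B
        gcongr
        linarith
    _ ≤ (|B| + 1) * (1 / (3 * (|B| + 1)) * (N : ℝ) ^ (2 * σ - 1 + ε)) := by gcongr
    _ = (N : ℝ) ^ (2 * σ - 1 + ε) / 3 := by
        have : |B| + 1 ≠ 0 := by positivity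
        field_simp

theorem opt : S_OPT := by
  intro x σ ε B hσ1 hσ2 hε
  obtain ⟨N₀, hN₀⟩ := Filter.eventually_atTop.1 (opt_large σ ε B hσ1 hσ2 hε)
  refine ⟨N₀, fun N hN => ?_⟩
  obtain ⟨hN1, hc1, hc2, hc3⟩ := hN₀ N hN
  have hNr : (1 : ℝ) ≤ N := by exact_mod_cast hN1
  have hN0 : (0 : ℝ) < N := by linarith
  set Z : ℝ := (N : ℝ) ^ (2 - 2 * σ) with hZ
  set g : ℕ := ⌊Z / 16⌋₊ with hg
  have hg1 : 1 ≤ g := by
    rw [hg, Nat.one_le_floor_iff]
    linarith
  have hg0 : (0 : ℝ) < g := by exact_mod_cast hg1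
  have hgle : (g : ℝ) ≤ Z / 16 := Nat.floor_le (by positivity)
  have hgge : Z / 32 ≤ g := by
    have h1 : Z / 16 < (g : ℝ) + 1 := Nat.lt_floor_add_one _
    have h2 : (1 : ℝ) ≤ g := by exact_mod_cast hg1
    linarith
  set m : ℕ := N / g + 1 with hm
  set J : Finset ℕ := Ico N (N + m * g) with hJ
  have hJcard : J.card = m * g := by rw [hJ, Nat.card_Ico]; omega
  have hcov : N + 1 ≤ m * g := by
    have h1 := Nat.lt_div_mul_add (a := N) (by omega : 0 < g)
    rw [hm, add_mul, one_mul]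
    omega
  have hIJ : Icc N (2 * N) ⊆ J := by
    intro n hn
    rw [mem_Icc] at hn
    rw [hJ, mem_Ico]
    omega
  set X : ℝ := (N : ℝ) ^ (2 * σ - 1) with hX
  set Y : ℝ := (N : ℝ) ^ (2 * σ - 1 + ε) with hY
  have hXpos : 0 < X := by positivity
  have hX1 : 1 ≤ X := Real.one_le_rpow hNr (by linarith)
  have hYX : Y = X * (N : ℝ) ^ ε := by rw [hY, hX, Real.rpow_add hN0]
  have hmle : (m : ℝ) ≤ 32 * X + 1 := by
    have h1 : ((N / g : ℕ) : ℝ) ≤ (N : ℝ) / g := Nat.cast_div_le
    have h2 : (N : ℝ) / g ≤ 32 * X := by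
      rw [div_le_iff₀ hg0]
      have h3 : X * Z = N := by
        rw [hX, hZ, ← Real.rpow_add hN0]
        have : 2 * σ - 1 + (2 - 2 * σ) = 1 := by ring
        rw [this, Real.rpow_one]
      calc (N : ℝ) = 32 * X * (Z / 32) := by rw [← h3]; ring
        _ ≤ 32 * X * g := by gcongr
    rw [hm]
    push_cast
    linarith
  -- the threshold
  have hthr : (N : ℝ) ^ σ < (((N : ℝ) + 1) / 2) / (2 * Real.sqrt g) := by
    have hs : Real.sqrt g ≤ (N : ℝ) ^ (1 - σ) / 4 := by
      rw [Real.sqrt_le_left (by positivity)]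
      refine hgle.trans (le_of_eq ?_)
      rw [div_pow, ← Real.rpow_natCast ((N : ℝ) ^ (1 - σ)), ← Real.rpow_mul hN0.le, hZ]
      norm_num
      congr 1
      ring
    have hs0 : 0 < Real.sqrt g := Real.sqrt_pos.2 hg0
    rw [lt_div_iff₀ (by positivity)]
    have h1 : (N : ℝ) ^ σ * (N : ℝ) ^ (1 - σ) = N := by
      rw [← Real.rpow_add hN0]
      have : σ + (1 - σ) = 1 := by ring
      rw [this, Real.rpow_one]
    have h2 : 0 < (N : ℝ) ^ σ := by positivity
    calc (N : ℝ) ^ σ * (2 * Real.sqrt g) ≤ (N : ℝ) ^ σ * (2 * ((N : ℝ) ^ (1 - σ) / 4)) := by gcongr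
      _ = ((N : ℝ) ^ σ * (N : ℝ) ^ (1 - σ)) / 2 := by ring
      _ = (N : ℝ) / 2 := by rw [h1]
      _ < ((N : ℝ) + 1) / 2 := by linarith
  set T : ℕ := ⌊Real.exp Y⌋₊ + 1 with hT
  set good : Finset ℕ → ℕ → Prop := fun D t => (N : ℝ) ^ σ <
    ‖∑ n ∈ Icc N (2 * N), ((rs D n : ℝ) : ℂ) * e ((t : ℝ) * x n)‖ with hgood
  classical
  have hcount : ∀ t : ℕ, (3 / 32 : ℝ) ^ m * 2 ^ (m * g) ≤
      ((J.powerset.filter (fun D => good D t)).card : ℝ) := by
    intro t
    obtain ⟨a, ha1, ha2, ha3⟩ := choice N (fun n => (t : ℝ) * x n) J hIJ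
    have h1 := blocks a ha1 N g hg1 m
    rw [← hJ] at h1
    refine h1.trans ?_
    unfold WW
    have h2 : J.powerset.filter (fun D => AA a J / (2 * Real.sqrt g) ≤ SS a J D) ⊆
        J.powerset.filter (fun D => good D t) := by
      intro D hD
      rw [mem_filter] at hD ⊢
      refine ⟨hD.1, ?_⟩
      have h3 : (((N : ℝ) + 1) / 2) / (2 * Real.sqrt g) ≤ AA a J / (2 * Real.sqrt g) := by gcongr
      exact hthr.trans_le (h3.trans (hD.2.trans (ha3 D)))
    exact_mod_cast card_le_card h2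
  have hsum : ∑ D ∈ J.powerset, (T : ℝ) * (3 / 32 : ℝ) ^ m ≤
      ∑ D ∈ J.powerset, (((range T).filter (fun t => good D t)).card : ℝ) := by
    rw [sum_const, card_powerset, hJcard, nsmul_eq_mul]
    have h1 : ∑ D ∈ J.powerset, (((range T).filter (fun t => good D t)).card : ℝ) =
        ∑ t ∈ range T, ((J.powerset.filter (fun D => good D t)).card : ℝ) := by
      simp only [card_filter, Nat.cast_sum]
      rw [sum_comm]
    rw [h1]
    calc ((2 ^ (m * g) : ℕ) : ℝ) * ((T : ℝ) * (3 / 32 : ℝ) ^ m)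
        = ∑ t ∈ range T, (3 / 32 : ℝ) ^ m * 2 ^ (m * g) := by
          rw [sum_const, card_range, nsmul_eq_mul]; push_cast; ring
      _ ≤ _ := sum_le_sum fun t _ => hcount t
  obtain ⟨D, -, hD⟩ := exists_le_of_sum_le ⟨∅, empty_mem_powerset J⟩ hsum
  refine ⟨fun n => ((rs D n : ℝ) : ℂ), fun n => ?_, ?_⟩
  · rcases rs_cases D n with h | h
    · left; simp only [h]; norm_num
    · right; simp only [h]; norm_num
  · have h1 : (N : ℝ) ^ B ≤ (T : ℝ) * (3 / 32 : ℝ) ^ m := by
      have h2 : Real.exp Y ≤ T := by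
        rw [hT]
        push_cast
        exact (Nat.lt_floor_add_one _).le
      have h3 : Real.exp (-3 * m) ≤ (3 / 32 : ℝ) ^ m := by
        rw [mul_comm, Real.exp_nat_mul]
        exact pow_le_pow_left₀ (Real.exp_pos _).le exp_neg_three m
      have h4 : (N : ℝ) ^ B = Real.exp (B * Real.log N) := by
        rw [Real.rpow_def_of_pos hN0, mul_comm]
      rw [h4]
      calc Real.exp (B * Real.log N) ≤ Real.exp (Y + -3 * m) := by
            apply Real.exp_le_exp.2
            have h5 : 288 * X ≤ Y := by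
              rw [hYX]
              nlinarith
            linarith
        _ = Real.exp Y * Real.exp (-3 * m) := Real.exp_add _ _
        _ ≤ (T : ℝ) * (3 / 32 : ℝ) ^ m := by gcongr
    refine (h1.trans hD).trans (le_of_eq ?_)
    congr 1

end Pool.Agent.P8H71.RF
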