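import Pool.Agent.P8H16.RF.Stm

/-! Packages TAY and DOWN of the project RF. -/

set_option autoImplicit false

namespace Pool.Agent.P8H71.RF

open Finset MeasureTheory Pool.Agent.P8H16.RF

theorem tay : S_TAY := by
  intro M c w v hv
  have hsum : Summable (fun k : ℕ => (1 / (k.factorial : ℝ)) *
      ‖∑ t ∈ range M, c t * (w t : ℂ) ^ k‖) := by
    have h1 : Summable (fun k : ℕ => ∑ t ∈ range M, ‖c t‖ * (|w t| ^ k / (k.factorial : ℝ))) := by
      refine summable_sum fun t _ => ?_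
      exact (Real.summable_pow_div_factorial _).mul_left _
    refine Summable.of_nonneg_of_le (fun k => by positivity) (fun k => ?_) h1
    calc (1 / (k.factorial : ℝ)) * ‖∑ t ∈ range M, c t * (w t : ℂ) ^ k‖
        ≤ (1 / (k.factorial : ℝ)) * ∑ t ∈ range M, ‖c t * (w t : ℂ) ^ k‖ := by
          gcongr
          exact norm_sum_le _ _
      _ = _ := by
          rw [mul_sum]
          refine sum_congr rfl fun t _ => ?_
          rw [norm_mul, norm_pow, Complex.norm_real, Real.norm_eq_abs]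
          ring
  refine ⟨hsum, ?_⟩
  have hexp : ∀ t, HasSum (fun k : ℕ => c t * ((((w t * v : ℝ) : ℂ) * Complex.I) ^ k /
      (k.factorial : ℂ))) (c t * e (w t * v)) := by
    intro t
    have h1 := NormedSpace.expSeries_div_hasSum_exp (((w t * v : ℝ) : ℂ) * Complex.I)
    rw [← Complex.exp_eq_exp_ℂ] at h1
    exact h1.mul_left (c t)
  have htot : HasSum (fun k : ℕ => ∑ t ∈ range M, c t * ((((w t * v : ℝ) : ℂ) * Complex.I) ^ k /
      (k.factorial : ℂ))) (∑ t ∈ range M, c t * e (w t * v)) :=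
    hasSum_sum fun t _ => hexp t
  have hterm : ∀ k : ℕ, ‖∑ t ∈ range M, c t * ((((w t * v : ℝ) : ℂ) * Complex.I) ^ k /
      (k.factorial : ℂ))‖ ≤ (1 / (k.factorial : ℝ)) * ‖∑ t ∈ range M, c t * (w t : ℂ) ^ k‖ := by
    intro k
    have h1 : ∑ t ∈ range M, c t * ((((w t * v : ℝ) : ℂ) * Complex.I) ^ k / (k.factorial : ℂ)) =
        (((v : ℂ) * Complex.I) ^ k / (k.factorial : ℂ)) * ∑ t ∈ range M, c t * (w t : ℂ) ^ k := by
      rw [mul_sum]
      refine sum_congr rfl fun t _ => ?_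
      push_cast
      rw [mul_assoc ((w t : ℂ)), mul_pow]
      ring
    rw [h1, norm_mul]
    gcongr
    rw [norm_div, norm_pow, norm_mul, Complex.norm_I, mul_one, Complex.norm_real, Real.norm_eq_abs,
      Complex.norm_natCast]
    gcongr
    exact pow_le_one₀ (abs_nonneg _) hv
  have hnsum : Summable (fun k : ℕ => ‖∑ t ∈ range M, c t * ((((w t * v : ℝ) : ℂ) * Complex.I) ^ k /
      (k.factorial : ℂ))‖) := Summable.of_nonneg_of_le (fun k => norm_nonneg _) hterm hsum
  rw [← htot.tsum_eq]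
  exact (norm_tsum_le_tsum_norm hnsum).trans (hnsum.tsum_le_tsum hterm hsum)

theorem e_add (x y : ℝ) : e (x + y) = e x * e y := by
  unfold e
  rw [← Complex.exp_add]
  congr 1
  push_cast
  ring

theorem tsum_fact_le (B : ℝ) (hB : 0 ≤ B) (f : ℕ → ℝ) (hf0 : ∀ k, 0 ≤ f k)
    (hf : ∀ k, f k ≤ B) :
    ∑' k : ℕ, (1 / (k.factorial : ℝ)) * f k ≤ 3 * B := by
  have h1 : HasSum (fun k : ℕ => (1 : ℝ) ^ k / (k.factorial : ℝ)) (Real.exp 1) := by
    have := NormedSpace.expSeries_div_hasSum_exp (1 : ℝ)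
    rwa [← Real.exp_eq_exp_ℝ] at this
  have h2 : HasSum (fun k : ℕ => (1 / (k.factorial : ℝ)) * B) (Real.exp 1 * B) := by
    have := h1.mul_right B
    simpa using this
  have h3 : Summable (fun k : ℕ => (1 / (k.factorial : ℝ)) * f k) := by
    refine Summable.of_nonneg_of_le (fun k => ?_) (fun k => ?_) h2.summable
    · have := hf0 k
      positivity
    · have := hf k
      gcongr
  calc ∑' k : ℕ, (1 / (k.factorial : ℝ)) * f k ≤ ∑' k : ℕ, (1 / (k.factorial : ℝ)) * B := by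
        refine h3.tsum_le_tsum (fun k => ?_) h2.summable
        have := hf k
        gcongr
    _ = Real.exp 1 * B := h2.tsum_eq
    _ ≤ 3 * B := by
        have := Real.exp_one_lt_d9
        gcongr
        linarith

theorem down (hT : S_TAY) : S_DOWN := by
  intro κ s x hκ hx hL ε hε
  obtain ⟨C, hC0, hC⟩ := hL ε hε
  refine ⟨3 * C, by positivity, fun N M a hN hM => ?_⟩
  have hN0 : (0 : ℝ) < N := by exact_mod_cast hN
  have hN1 : (1 : ℝ) ≤ N := by exact_mod_cast hN
  set X : ℝ := (N : ℝ) ^ (1 + κ) with hX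
  have hX0 : 0 < X := Real.rpow_pos_of_pos hN0 _
  set ak : ℕ → ℕ → ℂ := fun k t => a t * ((t / X : ℝ) : ℂ) ^ k with hak
  have hle : ∀ k, ∀ t ∈ range M, ‖ak k t‖ ≤ ‖a t‖ := by
    intro k t ht
    have ht' : t + 1 ≤ M := mem_range.1 ht
    have ht2 : (t : ℝ) + 1 ≤ M := by exact_mod_cast ht'
    simp only [hak]
    rw [norm_mul, norm_pow, Complex.norm_real, Real.norm_eq_abs]
    have h1 : |(t : ℝ) / X| ≤ 1 := by
      rw [abs_of_nonneg (by positivity), div_le_one hX0]
      linarith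
    calc ‖a t‖ * |(t : ℝ) / X| ^ k ≤ ‖a t‖ * 1 := by
          gcongr
          exact pow_le_one₀ (abs_nonneg _) h1
      _ = ‖a t‖ := mul_one _
  have hn1 : ∀ k, n1 M (ak k) ≤ n1 M a := fun k => sum_le_sum (hle k)
  have hn2 : ∀ k, n2 M (ak k) ≤ n2 M a := fun k => by
    unfold n2
    refine Real.sqrt_le_sqrt (sum_le_sum fun t ht => ?_)
    have := hle k t ht
    gcongr
  have hn1' : 0 ≤ n1 M a := sum_nonneg fun t _ => norm_nonneg _
  have hn2' : 0 ≤ n2 M a := Real.sqrt_nonneg _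
  set B : ℝ := C * (N : ℝ) ^ ε * ((N : ℝ) * n2 M a + (N : ℝ) ^ s * n1 M a) with hB
  have hB0 : 0 ≤ B := by positivity
  have hk : ∀ k, ∑ n ∈ Icc N (2 * N), ‖F M (ak k) (x n)‖ ≤ B := by
    intro k
    refine (hC N M (ak k) hN hM).trans ?_
    have h1 := hn1 k
    have h2 := hn2 k
    simp only [hB]
    gcongr
  -- pointwise
  have hpt : ∀ n ∈ Icc N (2 * N),
      Summable (fun k : ℕ => (1 / (k.factorial : ℝ)) * ‖F M (ak k) (x n)‖) ∧
      ‖F M a (Real.log n)‖ ≤ ∑' k : ℕ, (1 / (k.factorial : ℝ)) * ‖F M (ak k) (x n)‖ := by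
    intro n hn
    rw [mem_Icc] at hn
    have hn1 : 1 ≤ n := hN.trans hn.1
    obtain ⟨hy0, hy1⟩ := hx n hn1
    have hNn : (N : ℝ) ≤ n := by exact_mod_cast hn.1
    have hy2 : x n - Real.log n ≤ 1 / X := by
      refine hy1.trans ?_
      rw [Real.rpow_neg (by positivity), hX, ← one_div]
      refine one_div_le_one_div_of_le hX0 ?_
      exact Real.rpow_le_rpow hN0.le hNn (by linarith)
    have hv : |(-X * (x n - Real.log n))| ≤ 1 := by
      rw [neg_mul, abs_neg, abs_of_nonneg (by positivity)]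
      calc X * (x n - Real.log n) ≤ X * (1 / X) := by gcongr
        _ = 1 := by field_simp
    have h1 := hT M (fun t => a t * e ((t : ℝ) * x n)) (fun t => (t : ℝ) / X)
      (-X * (x n - Real.log n)) hv
    have h2 : ∀ k, ∑ t ∈ range M, a t * e ((t : ℝ) * x n) * (((t : ℝ) / X : ℝ) : ℂ) ^ k =
        F M (ak k) (x n) := by
      intro k
      unfold F
      refine sum_congr rfl fun t _ => ?_
      simp only [hak]
      ring
    have h3 : ∑ t ∈ range M, a t * e ((t : ℝ) * x n) *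
        e ((t : ℝ) / X * (-X * (x n - Real.log n))) = F M a (Real.log n) := by
      unfold F
      refine sum_congr rfl fun t _ => ?_
      rw [mul_assoc, ← e_add]
      congr 2
      field_simp
      ring
    simp only [h2, h3] at h1
    exact h1
  calc ∑ n ∈ Icc N (2 * N), ‖F M a (Real.log n)‖
      ≤ ∑ n ∈ Icc N (2 * N), ∑' k : ℕ, (1 / (k.factorial : ℝ)) * ‖F M (ak k) (x n)‖ :=
        sum_le_sum fun n hn => (hpt n hn).2
    _ = ∑' k : ℕ, ∑ n ∈ Icc N (2 * N), (1 / (k.factorial : ℝ)) * ‖F M (ak k) (x n)‖ := by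
        rw [Summable.tsum_finsetSum fun n hn => (hpt n hn).1]
    _ = ∑' k : ℕ, (1 / (k.factorial : ℝ)) * ∑ n ∈ Icc N (2 * N), ‖F M (ak k) (x n)‖ := by
        refine tsum_congr fun k => ?_
        rw [mul_sum]
    _ ≤ 3 * B := tsum_fact_le B hB0 _ (fun k => sum_nonneg fun n _ => norm_nonneg _) hk
    _ = 3 * C * (N : ℝ) ^ ε * ((N : ℝ) * n2 M a + (N : ℝ) ^ s * n1 M a) := by
        simp only [hB]
        ring

end Pool.Agent.P8H71.RF
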