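import Pool.Agent.P8H71.RF.Tay

/-! Package ALM of the project RF: Borel-Cantelli. -/

set_option autoImplicit false

namespace Pool.Agent.P8H71.RF

open Finset MeasureTheory Pool.Agent.P8H16.RF

theorem norm_e (x : ℝ) : ‖e x‖ = 1 := Complex.norm_exp_ofReal_mul_I x

theorem norm_F_le (M : ℕ) (a : ℕ → ℂ) (x : ℝ) : ‖F M a x‖ ≤ n1 M a := by
  unfold F n1
  refine (norm_sum_le _ _).trans (sum_le_sum fun t _ => ?_)
  rw [norm_mul, norm_e, mul_one]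

/-- the coefficients cut off at `M` -/
noncomputable def cut (M : ℕ) (a : ℕ → ℂ) (t : ℕ) : ℂ := if t < M then a t else 0

theorem sum_cut {β : Type} [AddCommMonoid β] {M M' : ℕ} (h : M ≤ M') (a : ℕ → ℂ) (g : ℕ → ℂ → β)
    (hg : ∀ t, g t 0 = 0) :
    ∑ t ∈ range M', g t (cut M a t) = ∑ t ∈ range M, g t (a t) := by
  have h1 : ∑ t ∈ range M, g t (a t) = ∑ t ∈ range M, g t (cut M a t) := by
    refine sum_congr rfl fun t ht => ?_
    rw [cut, if_pos (mem_range.1 ht)]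
  rw [h1]
  symm
  refine sum_subset (range_subset_range.2 h) fun t _ ht => ?_
  rw [cut, if_neg (by simpa using ht), hg]

theorem F_cut {M M' : ℕ} (h : M ≤ M') (a : ℕ → ℂ) (x : ℝ) : F M' (cut M a) x = F M a x :=
  sum_cut h a (fun t z => z * e ((t : ℝ) * x)) fun t => by simp

theorem n1_cut {M M' : ℕ} (h : M ≤ M') (a : ℕ → ℂ) : n1 M' (cut M a) = n1 M a :=
  sum_cut h a (fun _ z => ‖z‖) fun t => by simp

theorem n2_cut {M M' : ℕ} (h : M ≤ M') (a : ℕ → ℂ) : n2 M' (cut M a) = n2 M a := by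
  unfold n2
  rw [sum_cut h a (fun _ z => ‖z‖ ^ 2) fun t => by simp]

/-- the parameter of the deviation -/
noncomputable def uu (A k : ℕ) : ℝ :=
  Real.sqrt (32 * ((k : ℝ) + 2) * ((A : ℝ) + 3) * Real.log ((k : ℝ) + 3))

theorem log_pos' (k : ℕ) : 1 ≤ Real.log ((k : ℝ) + 3) := by
  rw [Real.le_log_iff_exp_le (by positivity)]
  have := Real.exp_one_lt_d9
  have h2 : (0 : ℝ) ≤ k := Nat.cast_nonneg k
  linarith

theorem uu_sq (A k : ℕ) : uu A k ^ 2 =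
    32 * ((k : ℝ) + 2) * ((A : ℝ) + 3) * Real.log ((k : ℝ) + 3) := by
  unfold uu
  rw [Real.sq_sqrt]
  have := log_pos' k
  positivity

theorem uu_le (A : ℕ) {ε : ℝ} (hε : 0 < ε) : ∃ K : ℝ, 0 ≤ K ∧ ∀ k : ℕ,
    uu A k ≤ K * (((k + 1 : ℕ) : ℝ) ^ ε * ((k + 1 : ℕ) : ℝ) ^ ((1 : ℝ) / 2)) := by
  set K : ℝ := 64 * ((A : ℝ) + 3) * (3 ^ (2 * ε) / (2 * ε)) with hK
  have hK0 : 0 ≤ K := by positivity
  refine ⟨Real.sqrt K, Real.sqrt_nonneg _, fun k => ?_⟩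
  set N : ℝ := ((k + 1 : ℕ) : ℝ) with hN
  have hNk : N = (k : ℝ) + 1 := by rw [hN]; push_cast; ring
  have hk0 : (0 : ℝ) ≤ k := Nat.cast_nonneg k
  have hN1 : 1 ≤ N := by rw [hNk]; linarith
  have hN0 : 0 < N := by linarith
  have h1 : Real.log ((k : ℝ) + 3) ≤ (3 ^ (2 * ε) / (2 * ε)) * N ^ (2 * ε) := by
    have h2 : Real.log ((k : ℝ) + 3) ≤ Real.log (3 * N) := by
      apply Real.log_le_log (by positivity)
      rw [hNk]; linarith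
    have h3 := Real.log_le_rpow_div (x := 3 * N) (ε := 2 * ε) (by positivity) (by positivity)
    rw [Real.mul_rpow (by norm_num) hN0.le] at h3
    calc Real.log ((k : ℝ) + 3) ≤ Real.log (3 * N) := h2
      _ ≤ 3 ^ (2 * ε) * N ^ (2 * ε) / (2 * ε) := h3
      _ = _ := by ring
  have h4 : 32 * ((k : ℝ) + 2) * ((A : ℝ) + 3) * Real.log ((k : ℝ) + 3) ≤
      K * (N ^ ε * N ^ ((1 : ℝ) / 2)) ^ 2 := by
    have h5 : (k : ℝ) + 2 ≤ 2 * N := by rw [hNk]; linarith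
    have h6 : (N ^ ε * N ^ ((1 : ℝ) / 2)) ^ 2 = N ^ (2 * ε) * N := by
      rw [mul_pow, ← Real.rpow_natCast (N ^ ε), ← Real.rpow_mul hN0.le,
        ← Real.rpow_natCast (N ^ ((1 : ℝ) / 2)), ← Real.rpow_mul hN0.le]
      norm_num
      rw [mul_comm ε 2]
      exact Or.inl rfl
    rw [h6]
    have h7 := log_pos' k
    calc 32 * ((k : ℝ) + 2) * ((A : ℝ) + 3) * Real.log ((k : ℝ) + 3)
        ≤ 32 * (2 * N) * ((A : ℝ) + 3) * ((3 ^ (2 * ε) / (2 * ε)) * N ^ (2 * ε)) := by gcongr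
      _ = K * (N ^ (2 * ε) * N) := by rw [hK]; ring
  unfold uu
  calc Real.sqrt (32 * ((k : ℝ) + 2) * ((A : ℝ) + 3) * Real.log ((k : ℝ) + 3))
      ≤ Real.sqrt (K * (N ^ ε * N ^ ((1 : ℝ) / 2)) ^ 2) := Real.sqrt_le_sqrt h4
    _ = Real.sqrt K * (N ^ ε * N ^ ((1 : ℝ) / 2)) := by
        rw [Real.sqrt_mul hK0, Real.sqrt_sq (by positivity)]

/-- the exceptional events -/
def EE (κ : ℝ) (A k : ℕ) : Set (ℕ → unitInterval) :=
  {θ | ∃ a : ℕ → ℂ, 4 * uu A k * n1 ((k + 1) ^ A + 1) a +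
      2 * ∑ n ∈ Icc (k + 1) (2 * (k + 1)),
        (∫ r in (0 : ℝ)..1, ‖F ((k + 1) ^ A + 1) a (fr κ n r)‖) <
        ∑ n ∈ Icc (k + 1) (2 * (k + 1)), ‖F ((k + 1) ^ A + 1) a (fr κ n (θ n))‖}

theorem EE_le (hF : S_FIN) (κ : ℝ) (A k : ℕ) :
    Pr (EE κ A k) ≤ ENNReal.ofReal (32 * (1 / ((k : ℝ) + 1) ^ 2)) := by
  have hk0 : (0 : ℝ) ≤ k := Nat.cast_nonneg k
  have hlog := log_pos' k
  have hcast : (((k + 1 : ℕ) : ℝ) + 1) = (k : ℝ) + 2 := by push_cast; ring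
  have h1 := hF κ (k + 1) ((k + 1) ^ A + 1) (uu A k) (by omega) (Real.sqrt_nonneg _) (by
    rw [uu_sq, hcast]
    have hA : (0 : ℝ) ≤ A := Nat.cast_nonneg A
    have h2 : (12 : ℝ) ≤ 32 * ((A : ℝ) + 3) * Real.log ((k : ℝ) + 3) := by nlinarith
    nlinarith)
  refine h1.trans (ENNReal.ofReal_le_ofReal ?_)
  rw [uu_sq, hcast]
  have h2 : 32 * ((k : ℝ) + 2) * ((A : ℝ) + 3) * Real.log ((k : ℝ) + 3) / (32 * ((k : ℝ) + 2)) =
      Real.log ((k : ℝ) + 3) * ((A + 3 : ℕ) : ℝ) := by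
    push_cast
    field_simp
  rw [h2, Real.exp_neg, Real.exp_mul, Real.exp_log (by positivity), Real.rpow_natCast]
  have h3 : (((k + 1) ^ A + 1 : ℕ) : ℝ) ≤ 2 * ((k : ℝ) + 3) ^ A := by
    push_cast
    have h4 : ((k : ℝ) + 1) ^ A ≤ ((k : ℝ) + 3) ^ A := by gcongr; norm_num
    have h5 : (1 : ℝ) ≤ ((k : ℝ) + 3) ^ A := one_le_pow₀ (by linarith)
    linarith
  calc 16 * (((k + 1) ^ A + 1 : ℕ) : ℝ) * (((k : ℝ) + 3) ^ (A + 3))⁻¹
      ≤ 16 * (2 * ((k : ℝ) + 3) ^ A) * (((k : ℝ) + 3) ^ (A + 3))⁻¹ := by gcongr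
    _ = 32 * (1 / ((k : ℝ) + 3) ^ 3) := by
        rw [pow_add]
        field_simp
        norm_num
    _ ≤ 32 * (1 / ((k : ℝ) + 1) ^ 2) := by
        gcongr
        calc ((k : ℝ) + 1) ^ 2 ≤ ((k : ℝ) + 3) ^ 2 := by gcongr; norm_num
          _ ≤ ((k : ℝ) + 3) ^ 3 := pow_le_pow_right₀ (by linarith) (by norm_num)

theorem EE_sum (hF : S_FIN) (κ : ℝ) (A : ℕ) : ∑' k, Pr (EE κ A k) ≠ ⊤ := by
  have h1 : Summable fun k : ℕ => 32 * (1 / ((k : ℝ) + 1) ^ 2) := by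
    have h2 := (summable_nat_add_iff 1).2 (Real.summable_one_div_nat_pow.2 (by norm_num : 1 < 2))
    have h3 := h2.mul_left (32 : ℝ)
    refine h3.congr fun k => ?_
    push_cast
    rfl
  refine ne_top_of_le_ne_top h1.tsum_ofReal_ne_top (ENNReal.tsum_le_tsum fun k => EE_le hF κ A k)

theorem alm (hF : S_FIN) : S_ALM := by
  intro κ s hs hMean
  have key : ∀ A : ℕ, ∀ᵐ θ ∂Pr, L1 (fun n => fr κ n (θ n)) (A : ℝ) s := by
    intro A
    filter_upwards [ae_eventually_notMem (EE_sum hF κ A)] with θ hθ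
    obtain ⟨K₀, hK₀⟩ := Filter.eventually_atTop.1 hθ
    intro ε hε
    obtain ⟨C₁, hC₁, hC⟩ := hMean ε hε
    obtain ⟨K, hK0, hK⟩ := uu_le A hε
    refine ⟨4 * K + 2 * C₁ + ((K₀ : ℝ) + 1), by positivity, fun N M a hN hM => ?_⟩
    obtain ⟨k, rfl⟩ : ∃ k, N = k + 1 := ⟨N - 1, by omega⟩
    have hN1 : (1 : ℝ) ≤ ((k + 1 : ℕ) : ℝ) := by exact_mod_cast hN
    have hN0 : (0 : ℝ) < ((k + 1 : ℕ) : ℝ) := by linarith
    have hMle : M ≤ (k + 1) ^ A + 1 := by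
      rw [Real.rpow_natCast] at hM
      exact_mod_cast hM
    have hn1 : 0 ≤ n1 M a := sum_nonneg fun t _ => norm_nonneg _
    have hn2 : 0 ≤ n2 M a := Real.sqrt_nonneg _
    have hNe : 1 ≤ ((k + 1 : ℕ) : ℝ) ^ ε := Real.one_le_rpow hN1 hε.le
    have hNs : ((k + 1 : ℕ) : ℝ) ^ ((1 : ℝ) / 2) ≤ ((k + 1 : ℕ) : ℝ) ^ s :=
      Real.rpow_le_rpow_of_exponent_le hN1 hs
    have hNs1 : 1 ≤ ((k + 1 : ℕ) : ℝ) ^ s := Real.one_le_rpow hN1 (by linarith)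
    set P : ℝ := ((k + 1 : ℕ) : ℝ) ^ ε * (((k + 1 : ℕ) : ℝ) * n2 M a +
      ((k + 1 : ℕ) : ℝ) ^ s * n1 M a) with hP
    have hP1 : ((k + 1 : ℕ) : ℝ) ^ ε * ((k + 1 : ℕ) : ℝ) ^ ((1 : ℝ) / 2) * n1 M a ≤ P := by
      rw [hP, mul_assoc]
      gcongr
      have h1 : 0 ≤ ((k + 1 : ℕ) : ℝ) * n2 M a := by positivity
      have h2 : ((k + 1 : ℕ) : ℝ) ^ ((1 : ℝ) / 2) * n1 M a ≤ ((k + 1 : ℕ) : ℝ) ^ s * n1 M a := by
        gcongr
      linarith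
    have hP2 : n1 M a ≤ P := by
      rw [hP]
      have h1 : 0 ≤ ((k + 1 : ℕ) : ℝ) * n2 M a := by positivity
      have h2 : n1 M a ≤ ((k + 1 : ℕ) : ℝ) ^ s * n1 M a := le_mul_of_one_le_left hn1 hNs1
      calc n1 M a ≤ ((k + 1 : ℕ) : ℝ) * n2 M a + ((k + 1 : ℕ) : ℝ) ^ s * n1 M a := by linarith
        _ ≤ _ := le_mul_of_one_le_left (by positivity) hNe
    have hP0 : 0 ≤ P := hn1.trans hP2
    have hgoal : (4 * K + 2 * C₁ + ((K₀ : ℝ) + 1)) * ((k + 1 : ℕ) : ℝ) ^ ε *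
        (((k + 1 : ℕ) : ℝ) * n2 M a + ((k + 1 : ℕ) : ℝ) ^ s * n1 M a) =
        4 * K * P + 2 * C₁ * P + ((K₀ : ℝ) + 1) * P := by
      rw [hP]; ring
    rw [hgoal]
    by_cases hk : K₀ ≤ k
    · have h1 := hK₀ k hk
      have h2 : ∑ n ∈ Icc (k + 1) (2 * (k + 1)), ‖F M a (fr κ n (θ n))‖ ≤
          4 * uu A k * n1 M a + 2 * ∑ n ∈ Icc (k + 1) (2 * (k + 1)),
            (∫ r in (0 : ℝ)..1, ‖F M a (fr κ n r)‖) := by
        by_contra hcon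
        push Not at hcon
        apply h1
        refine ⟨cut M a, ?_⟩
        simp only [F_cut hMle, n1_cut hMle]
        exact hcon
      have h3 := hC (k + 1) M a hN
      have h4 := hK k
      have h5 : 4 * uu A k * n1 M a ≤ 4 * K * P := by
        calc 4 * uu A k * n1 M a ≤ 4 * (K * (((k + 1 : ℕ) : ℝ) ^ ε *
              ((k + 1 : ℕ) : ℝ) ^ ((1 : ℝ) / 2))) * n1 M a := by gcongr
          _ = 4 * K * (((k + 1 : ℕ) : ℝ) ^ ε * ((k + 1 : ℕ) : ℝ) ^ ((1 : ℝ) / 2) * n1 M a) := by ring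
          _ ≤ 4 * K * P := by gcongr
      have h6 : C₁ * ((k + 1 : ℕ) : ℝ) ^ ε * (((k + 1 : ℕ) : ℝ) * n2 M a +
          ((k + 1 : ℕ) : ℝ) ^ s * n1 M a) = C₁ * P := by rw [hP]; ring
      rw [h6] at h3
      have h7 : 0 ≤ ((K₀ : ℝ) + 1) * P := by positivity
      linarith
    · have h1 : ∑ n ∈ Icc (k + 1) (2 * (k + 1)), ‖F M a (fr κ n (θ n))‖ ≤
          ((K₀ : ℝ) + 1) * n1 M a := by
        calc ∑ n ∈ Icc (k + 1) (2 * (k + 1)), ‖F M a (fr κ n (θ n))‖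
            ≤ ∑ n ∈ Icc (k + 1) (2 * (k + 1)), n1 M a := sum_le_sum fun n _ => norm_F_le _ _ _
          _ = ((k + 2 : ℕ) : ℝ) * n1 M a := by
              rw [sum_const, Nat.card_Icc, nsmul_eq_mul]
              congr 2
              omega
          _ ≤ _ := by
              gcongr
              have : k + 2 ≤ K₀ + 1 := by omega
              exact_mod_cast this
      have h2 : ((K₀ : ℝ) + 1) * n1 M a ≤ ((K₀ : ℝ) + 1) * P := by gcongr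
      have h3 : 0 ≤ 4 * K * P := by positivity
      have h4 : 0 ≤ 2 * C₁ * P := by positivity
      linarith
  filter_upwards [ae_all_iff.2 key] with θ hθ A
  obtain ⟨A', hA'⟩ := exists_nat_ge A
  intro ε hε
  obtain ⟨C, hC0, hC⟩ := hθ A' ε hε
  refine ⟨C, hC0, fun N M a hN hM => hC N M a hN (hM.trans ?_)⟩
  have hN1 : (1 : ℝ) ≤ N := by exact_mod_cast hN
  have := Real.rpow_le_rpow_of_exponent_le hN1 hA'
  linarith

end Pool.Agent.P8H71.RF
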